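import Pool.Agent.LeadSN.Stm

/-!
# Piece HI of project SN
-/

set_option autoImplicit false

open scoped BigOperators
open Pool.Agent.Y282.RB

namespace Pool.Agent.W2helper10.SN

open Pool.Agent.LeadSN

lemma exp_one_pow (m : ℕ) : Real.exp (m : ℝ) ≤ (2.7182818286 : ℝ) ^ m := by
  have h : Real.exp (m : ℝ) = Real.exp 1 ^ m := by
    rw [← Real.exp_nat_mul]; simp
  rw [h]
  exact pow_le_pow_left₀ (Real.exp_pos 1).le Real.exp_one_lt_d9.le m

lemma exp_bd1 : Real.exp (5 / 2) ≤ 25 / 2 := by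
  have h1 : Real.exp (5 / 2) ^ 2 = Real.exp ((5 : ℕ) : ℝ) := by
    rw [← Real.exp_nat_mul]; congr 1; norm_num
  have h2 := exp_one_pow 5
  have h3 : Real.exp (5 / 2) ^ 2 ≤ (25 / 2) ^ 2 := by
    rw [h1]
    refine h2.trans ?_
    norm_num
  exact le_of_sq_le_sq h3 (by norm_num)

lemma exp_bd2 : Real.exp (703 / 200) ≤ 34 := by
  have h1 : Real.exp (703 / 200) ^ 2 = Real.exp ((7 : ℕ) : ℝ) * Real.exp (3 / 100) := by
    rw [← Real.exp_nat_mul, ← Real.exp_add]; congr 1; norm_num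
  have h2 := exp_one_pow 7
  have h4 : Real.exp (3 / 100) ≤ 100 / 97 := by
    have h5 := Real.add_one_le_exp (-(3 / 100) : ℝ)
    have h6 : Real.exp (3 / 100) * Real.exp (-(3 / 100)) = 1 := by
      rw [← Real.exp_add]; simp
    have h7 := Real.exp_pos (3 / 100)
    nlinarith
  have h3 : Real.exp (703 / 200) ^ 2 ≤ 34 ^ 2 := by
    rw [h1]
    refine (mul_le_mul h2 h4 (Real.exp_pos _).le (by positivity)).trans ?_
    norm_num
  exact le_of_sq_le_sq h3 (by norm_num)

theorem p_hi : S_HI := by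
  intro hPH hA1 hHS hWT hUP n p γ hn hp hL hx hγ
  have hn1 : (1 : ℝ) ≤ n := by exact_mod_cast hn
  have hn2 : (1 : ℝ) ≤ (n : ℝ) ^ 2 := by nlinarith
  have hp100 : (100 : ℝ) ≤ p := by nlinarith
  have hp0 : 0 < p := by linarith
  have hσ : 1 / p ≤ 1 / 100 := by
    apply one_div_le_one_div_of_le <;> linarith
  have hσ0 : 0 < 1 / p := by positivity
  have hT : 0 ≤ TT n γ := by
    unfold TT
    exact Finset.sum_nonneg fun j _ => by positivity
  set x := γ 0 with hxdef
  set t := Real.sqrt (TT n γ) with htdef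
  have ht0 : 0 ≤ t := Real.sqrt_nonneg _
  have ht2 : t ^ 2 = TT n γ := Real.sq_sqrt hT
  set u := x * t with hudef
  have hu0 : 0 ≤ u := by positivity
  set β := p * (x ^ 2 - 1) with hβdef
  have hβ0 : 0 ≤ β := mul_nonneg hp0.le (by nlinarith)
  have hxβ : 1 + β / p = x ^ 2 := by
    rw [hβdef]; field_simp; ring
  obtain ⟨h1, h2⟩ := hPH.1 p β (by linarith) hβ0
  rw [hxβ] at h1 h2
  have hup := hUP n p γ hn hp hL (by linarith) hγ
  rw [← hxdef, ← hβdef] at hup
  have ha1 := hA1 n p γ hn hp100 hL hx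
  rw [← hxdef, ← htdef, ← hudef, ← hβdef] at ha1
  obtain ⟨-, -, hW⟩ := hWT (1 / p) hσ0 (by linarith)
  obtain ⟨hs1, -⟩ := hHS n (kk (1 / p)) hn (fun j hj => (hW j hj).2.2.2.2)
  -- the claim
  have key : ph (p / 2) (x ^ 2) ≤ 34 * ((n : ℝ) * u) ^ 2 := by
    have hv0 : 0 ≤ (n : ℝ) * u := by positivity
    rcases le_or_gt ((n : ℝ) * u) (5 / 4) with hv | hv
    · -- small
      have hb : β ≤ 4 * ((n : ℝ) * u) := by
        have e1 : ∑ j ∈ Finset.Ico 1 n, min (kk (1 / p) j) (4 * u) ≤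
            ∑ j ∈ Finset.Ico 1 n, 4 * u := Finset.sum_le_sum fun j _ => min_le_right _ _
        have e2 : ∑ j ∈ Finset.Ico 1 n, 4 * u = ((n : ℝ) - 1) * (4 * u) := by
          rw [Finset.sum_const, Nat.card_Ico, nsmul_eq_mul, Nat.cast_sub hn]; simp
        have e3 : 2 / (1 - 1 / p) ≤ 4 := by
          rw [div_le_iff₀ (by linarith)]; linarith
        have e4 : 2 / (1 - 1 / p) * u ≤ 4 * u := mul_le_mul_of_nonneg_right e3 hu0
        nlinarith
      have hb2 : β ≤ 5 := by linarith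
      have he : Real.exp (β / 2) ≤ 25 / 2 :=
        (Real.exp_le_exp.2 (by linarith)).trans exp_bd1
      have hβ2 : β ^ 2 ≤ 16 * ((n : ℝ) * u) ^ 2 := by nlinarith
      calc ph (p / 2) (x ^ 2) ≤ β ^ 2 / 8 * Real.exp (β / 2) := h2
        _ ≤ β ^ 2 / 8 * (25 / 2) := mul_le_mul_of_nonneg_left he (by positivity)
        _ ≤ 34 * ((n : ℝ) * u) ^ 2 := by nlinarith [sq_nonneg ((n : ℝ) * u)]
    · rcases le_or_gt u 1 with hu1 | hu1
      · have hupos : 0 < u := by
          rcases hu0.lt_or_eq with h | h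
          · exact h
          · rw [← h] at hv; norm_num at hv
        have hvpos : 0 < (n : ℝ) * u := by linarith
        have hs := hs1 u hupos hu1 (by linarith)
        have e3 : 2 / (1 - 1 / p) ≤ 203 / 100 := by
          rw [div_le_iff₀ (by linarith)]; linarith
        have e4 : 2 / (1 - 1 / p) * u ≤ 203 / 100 := by
          have : 2 / (1 - 1 / p) * u ≤ 203 / 100 * 1 :=
            mul_le_mul e3 hu1 hu0 (by norm_num)
          linarith
        have hb : β / 2 ≤ 703 / 200 + Real.log ((n : ℝ) * u) := by linarith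
        have he : Real.exp (β / 2) ≤ 34 * ((n : ℝ) * u) := by
          refine (Real.exp_le_exp.2 hb).trans ?_
          rw [Real.exp_add, Real.exp_log hvpos]
          exact mul_le_mul_of_nonneg_right exp_bd2 hv0
        nlinarith
      · have hv2 : (n : ℝ) ≤ (n : ℝ) * u := by nlinarith
        have hv3 : (n : ℝ) ^ 2 ≤ ((n : ℝ) * u) ^ 2 := by
          apply pow_le_pow_left₀ (by linarith) hv2
        have hb : β / 2 ≤ 703 / 200 + (Real.log (n : ℝ) + Real.log (n : ℝ)) := by linarith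
        have he : Real.exp (β / 2) ≤ 34 * (n : ℝ) ^ 2 := by
          refine (Real.exp_le_exp.2 hb).trans ?_
          rw [Real.exp_add, Real.exp_add, Real.exp_log (by linarith)]
          rw [sq]
          exact mul_le_mul_of_nonneg_right exp_bd2 (by positivity)
        linarith
  -- conclusion
  have hlog : Real.log (n : ℝ) ≤ (n : ℝ) - 1 := Real.log_le_sub_one_of_pos (by linarith)
  have hx2 : x ^ 2 ≤ 107 / 100 := by
    have e1 : p * (x ^ 2 - 1) ≤ 7 * (n : ℝ) ^ 2 := by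
      rw [← hβdef]; nlinarith
    nlinarith
  have e5 : ((n : ℝ) * u) ^ 2 = (n : ℝ) ^ 2 * x ^ 2 * TT n γ := by
    rw [← ht2, hudef]; ring
  rw [e5] at key
  have e6 : (n : ℝ) ^ 2 * x ^ 2 * TT n γ ≤ (n : ℝ) ^ 2 * (107 / 100) * TT n γ := by
    apply mul_le_mul_of_nonneg_right _ hT
    exact mul_le_mul_of_nonneg_left hx2 (by positivity)
  have e7 : 49 * (n : ℝ) ^ 2 * TT n γ ≤ (p / 2 - 1) * TT n γ := by
    apply mul_le_mul_of_nonneg_right _ hT
    linarith
  have e8 : 0 ≤ (n : ℝ) ^ 2 * TT n γ := by positivity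
  linarith

end Pool.Agent.W2helper10.SN
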